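import Mathlib.CategoryTheory.Category.Init
import Mathlib.Algebra.MvPolynomial.Monad
import Mathlib.Data.NNReal.Defs

set_option autoImplicit false

namespace Pool.Agent.MP_a2d820_lc.h28

open MvPolynomial
open scoped NNReal

/-- kinds of quantifier gates: summation, production, projection to 0, projection to 1 -/
inductive Qt : Type
  | sum : Qt
  | prod : Qt
  | set0 : Qt
  | set1 : Qt

variable {V : Type} [DecidableEq V]

/-- substitute the constant `c` for the variable `z` -/
noncomputable def fix (z : V) (c : ℝ≥0) (p : MvPolynomial V ℝ≥0) : MvPolynomial V ℝ≥0 :=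
  bind₁ (Function.update X z (C c)) p

/-- one quantifier applied to a polynomial -/
noncomputable def app : Qt → V → MvPolynomial V ℝ≥0 → MvPolynomial V ℝ≥0
  | .sum, z, p => fix z 0 p + fix z 1 p
  | .prod, z, p => fix z 0 p * fix z 1 p
  | .set0, z, p => fix z 0 p
  | .set1, z, p => fix z 1 p

/-- a block of quantifiers, outermost first -/
noncomputable def block : List (Qt × V) → MvPolynomial V ℝ≥0 → MvPolynomial V ℝ≥0
  | [], p => p
  | q :: Q, p => app q.1 q.2 (block Q p)

/-- monotone straight-line programs with quantifier blocks of the kinds `ok`: the list holds the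
polynomials computed so far, each with a bound on its nesting depth of blocks; the number is the
size (a block counts one plus its length) -/
inductive SLP (ok : Qt → Prop) : List (MvPolynomial V ℝ≥0 × ℕ) → ℕ → Prop
  | nil : SLP ok [] 0
  | const (L : List (MvPolynomial V ℝ≥0 × ℕ)) (s : ℕ) (c : ℝ≥0) (d : ℕ) :
      SLP ok L s → SLP ok ((C c, d) :: L) (s + 1)
  | var (L : List (MvPolynomial V ℝ≥0 × ℕ)) (s : ℕ) (v : V) (d : ℕ) :
      SLP ok L s → SLP ok ((X v, d) :: L) (s + 1)
  | add (L : List (MvPolynomial V ℝ≥0 × ℕ)) (s : ℕ) (p q : MvPolynomial V ℝ≥0) (a b d : ℕ) :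
      SLP ok L s → (p, a) ∈ L → (q, b) ∈ L → a ≤ d → b ≤ d → SLP ok ((p + q, d) :: L) (s + 1)
  | mul (L : List (MvPolynomial V ℝ≥0 × ℕ)) (s : ℕ) (p q : MvPolynomial V ℝ≥0) (a b d : ℕ) :
      SLP ok L s → (p, a) ∈ L → (q, b) ∈ L → a ≤ d → b ≤ d → SLP ok ((p * q, d) :: L) (s + 1)
  | quant (L : List (MvPolynomial V ℝ≥0 × ℕ)) (s : ℕ) (p : MvPolynomial V ℝ≥0) (a d : ℕ)
      (Q : List (Qt × V)) : SLP ok L s → (p, a) ∈ L → a < d → (∀ q ∈ Q, ok q.1) →
      SLP ok ((block Q p, d) :: L) (s + 1 + Q.length)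

/-- `f` is computed in size `s` and nesting depth at most `k` -/
def Computes (ok : Qt → Prop) (f : MvPolynomial V ℝ≥0) (s k : ℕ) : Prop :=
  ∃ L, SLP ok L s ∧ (f, k) ∈ L

end Pool.Agent.MP_a2d820_lc.h28
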