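import Mathlib.Topology.Sheaves.Presheaf
import Mathlib.Tactic.Monotonicity.Lemmas
import Mathlib.Data.Int.ConditionallyCompleteOrder
import Mathlib.Data.Int.Star
import Mathlib.Algebra.Order.Ring.Star
import Mathlib.Data.NNReal.Basic
import Mathlib.Tactic.Bound
import Mathlib.Combinatorics.SimpleGraph.Basic
import Mathlib.Tactic.Polynomial.Basic
import Pool.Agent.MP_a2d820_lc.h28.Defs

-- ======== part 0: formerly Pool.Agent.MP_a2d820_lc.h28.Supp
section MrgPart0

set_option autoImplicit false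

namespace Pool.Agent.MP_a2d820_lc.h28

open MvPolynomial
open scoped NNReal

variable {V : Type} [DecidableEq V]

omit [DecidableEq V] in
lemma mem_supp_add {p q : MvPolynomial V ℝ≥0} {m : V →₀ ℕ} :
    m ∈ (p + q).support ↔ m ∈ p.support ∨ m ∈ q.support := by
  simp only [mem_support_iff, coeff_add, ne_eq, add_eq_zero]
  tauto

lemma mem_supp_mul {p q : MvPolynomial V ℝ≥0} {m : V →₀ ℕ} :
    m ∈ (p * q).support ↔ ∃ a ∈ p.support, ∃ b ∈ q.support, a + b = m := by
  simp only [mem_support_iff, coeff_mul, ne_eq, Finset.sum_eq_zero_iff, mul_eq_zero]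
  constructor
  · intro h
    push Not at h
    obtain ⟨x, hx, h1, h2⟩ := h
    exact ⟨x.1, h1, x.2, h2, Finset.HasAntidiagonal.mem_antidiagonal.mp hx⟩
  · rintro ⟨a, ha, b, hb, hab⟩ h
    rcases h (a, b) (Finset.HasAntidiagonal.mem_antidiagonal.mpr hab) with h | h
    · exact ha h
    · exact hb h

omit [DecidableEq V] in
lemma mem_supp_sum {ι : Type*} (s : Finset ι) (p : ι → MvPolynomial V ℝ≥0) {m : V →₀ ℕ} :
    m ∈ (∑ i ∈ s, p i).support ↔ ∃ i ∈ s, m ∈ (p i).support := by
  simp only [mem_support_iff, coeff_sum, ne_eq, Finset.sum_eq_zero_iff]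
  push Not
  rfl

lemma supp_mul_congr {p p' q q' : MvPolynomial V ℝ≥0} (h1 : p.support = p'.support)
    (h2 : q.support = q'.support) : (p * q).support = (p' * q').support := by
  ext m; rw [mem_supp_mul, mem_supp_mul, h1, h2]

omit [DecidableEq V] in
lemma supp_sum_congr {ι : Type*} (s : Finset ι) {p p' : ι → MvPolynomial V ℝ≥0}
    (h : ∀ i ∈ s, (p i).support = (p' i).support) :
    (∑ i ∈ s, p i).support = (∑ i ∈ s, p' i).support := by
  ext m; rw [mem_supp_sum, mem_supp_sum]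
  exact exists_congr fun i => and_congr_right fun hi => by rw [h i hi]

lemma bind_fix (θ : V → MvPolynomial V ℝ≥0) (z : V) (c : ℝ≥0) (p : MvPolynomial V ℝ≥0) :
    bind₁ θ (fix z c p) = bind₁ (Function.update θ z (C c)) p := by
  unfold fix
  rw [bind₁_bind₁]
  congr 2
  funext v
  by_cases h : v = z
  · subst h; simp
  · simp [Function.update_of_ne h]

omit [DecidableEq V] in
lemma bind_mono (θ θ' : V → MvPolynomial V ℝ≥0) (h : ∀ v, ∃ r, θ' v = θ v + r)
    (p : MvPolynomial V ℝ≥0) : ∃ r, bind₁ θ' p = bind₁ θ p + r := by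
  induction p using MvPolynomial.induction_on with
  | C a => exact ⟨0, by simp⟩
  | add p q hp hq =>
    obtain ⟨r1, h1⟩ := hp
    obtain ⟨r2, h2⟩ := hq
    exact ⟨r1 + r2, by rw [map_add, map_add, h1, h2]; ring⟩
  | mul_X p v hp =>
    obtain ⟨r1, h1⟩ := hp
    obtain ⟨r2, h2⟩ := h v
    exact ⟨r1 * θ v + (bind₁ θ p + r1) * r2, by
      rw [map_mul, map_mul, bind₁_X_right, bind₁_X_right, h1, h2]; ring⟩

lemma supp_bind_sum (θ : V → MvPolynomial V ℝ≥0) (z : V) (p : MvPolynomial V ℝ≥0) :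
    (bind₁ θ (app .sum z p)).support = (bind₁ (Function.update θ z (C 1)) p).support := by
  obtain ⟨r, hr⟩ := bind_mono (Function.update θ z (C 0)) (Function.update θ z (C 1)) (fun v => by
    by_cases h : v = z
    · subst h; exact ⟨C 1, by simp⟩
    · exact ⟨0, by simp [Function.update_of_ne h]⟩) p
  ext m
  simp only [app, map_add, bind_fix]
  rw [mem_supp_add, hr, mem_supp_add]
  tauto

lemma bind_prod (θ : V → MvPolynomial V ℝ≥0) (z : V) (p : MvPolynomial V ℝ≥0) :
    bind₁ θ (app .prod z p) =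
      bind₁ (Function.update θ z (C 0)) p * bind₁ (Function.update θ z (C 1)) p := by
  simp only [app, map_mul, bind_fix]

/-- monomials of largest degree in `y` -/
def top (y : V) (p : MvPolynomial V ℝ≥0) : Set (V →₀ ℕ) :=
  {m | m ∈ p.support ∧ ∀ m' ∈ p.support, m' y ≤ m y}

omit [DecidableEq V] in
lemma top_congr (y : V) {p q : MvPolynomial V ℝ≥0} (h : p.support = q.support) :
    top y p = top y q := by
  unfold top; rw [h]

lemma mem_top_mul {y : V} {p q : MvPolynomial V ℝ≥0} {m : V →₀ ℕ} :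
    m ∈ top y (p * q) ↔ ∃ a ∈ top y p, ∃ b ∈ top y q, a + b = m := by
  constructor
  · rintro ⟨h1, h2⟩
    obtain ⟨a, ha, b, hb, rfl⟩ := mem_supp_mul.mp h1
    refine ⟨a, ⟨ha, fun a' ha' => ?_⟩, b, ⟨hb, fun b' hb' => ?_⟩, rfl⟩
    · have := h2 _ (mem_supp_mul.mpr ⟨a', ha', b, hb, rfl⟩)
      simp only [Finsupp.add_apply] at this
      omega
    · have := h2 _ (mem_supp_mul.mpr ⟨a, ha, b', hb', rfl⟩)
      simp only [Finsupp.add_apply] at this
      omega
  · rintro ⟨a, ha, b, hb, rfl⟩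
    refine ⟨mem_supp_mul.mpr ⟨a, ha.1, b, hb.1, rfl⟩, fun m' hm' => ?_⟩
    obtain ⟨a', ha', b', hb', rfl⟩ := mem_supp_mul.mp hm'
    have h1 := ha.2 a' ha'
    have h2 := hb.2 b' hb'
    simp only [Finsupp.add_apply]
    omega

omit [DecidableEq V] in
lemma top_add_left {y : V} {p q : MvPolynomial V ℝ≥0} {m : V →₀ ℕ} (h : m ∈ top y (p + q))
    (hp : m ∈ p.support) : m ∈ top y p ∧ top y p ⊆ top y (p + q) := by
  refine ⟨⟨hp, fun m' hm' => h.2 m' (mem_supp_add.mpr (Or.inl hm'))⟩, fun a ha => ?_⟩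
  exact ⟨mem_supp_add.mpr (Or.inl ha.1), fun m' hm' => (h.2 m' hm').trans (ha.2 m hp)⟩

/-- no sumset of two sets with two elements each -/
def Sidon (T : Set (V →₀ ℕ)) : Prop :=
  ∀ a a' b b' : V →₀ ℕ, a + b ∈ T → a' + b' ∈ T → a + b' ∈ T → a' + b ∈ T → a = a' ∨ b = b'

/-- translate inside -/
def Emb (T' : Set (V →₀ ℕ)) (m : V →₀ ℕ) (T : Set (V →₀ ℕ)) : Prop := ∀ t ∈ T', t + m ∈ T

/-- translate onto -/
def Shift (T' : Set (V →₀ ℕ)) (m : V →₀ ℕ) (T : Set (V →₀ ℕ)) : Prop :=
  Emb T' m T ∧ ∀ t ∈ T, ∃ t' ∈ T', t' + m = t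

omit [DecidableEq V] in
lemma Sidon.emb {T T' : Set (V →₀ ℕ)} {m : V →₀ ℕ} (h : Sidon T) (he : Emb T' m T) :
    Sidon T' := by
  intro a a' b b' h1 h2 h3 h4
  have := h a a' (b + m) (b' + m) (by rw [← add_assoc]; exact he _ h1)
    (by rw [← add_assoc]; exact he _ h2) (by rw [← add_assoc]; exact he _ h3)
    (by rw [← add_assoc]; exact he _ h4)
  rcases this with h | h
  · exact Or.inl h
  · exact Or.inr (add_right_cancel h)

omit [DecidableEq V] in
lemma Shift.nontrivial {T T' : Set (V →₀ ℕ)} {m : V →₀ ℕ} (h : Shift T' m T)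
    (hT : T.Nontrivial) : T'.Nontrivial := by
  obtain ⟨a, ha, b, hb, hab⟩ := hT
  obtain ⟨a', ha', rfl⟩ := h.2 a ha
  obtain ⟨b', hb', rfl⟩ := h.2 b hb
  exact ⟨a', ha', b', hb', fun e => hab (by rw [e])⟩

omit [DecidableEq V] in
lemma Shift.trans {T T' T'' : Set (V →₀ ℕ)} {m m' : V →₀ ℕ} (h : Shift T'' m' T')
    (h' : Shift T' m T) : Shift T'' (m' + m) T := by
  refine ⟨fun t ht => by rw [← add_assoc]; exact h'.1 _ (h.1 t ht), fun t ht => ?_⟩
  obtain ⟨a, ha, rfl⟩ := h'.2 t ht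
  obtain ⟨b, hb, rfl⟩ := h.2 a ha
  exact ⟨b, hb, (add_assoc _ _ _).symm⟩

omit [DecidableEq V] in
lemma Shift.refl (T : Set (V →₀ ℕ)) : Shift T 0 T :=
  ⟨fun t ht => by simpa using ht, fun t ht => ⟨t, ht, by simp⟩⟩

lemma mul_split {y : V} {p q : MvPolynomial V ℝ≥0} (hS : Sidon (top y (p * q)))
    (hN : (top y (p * q)).Nontrivial) :
    (∃ m, Shift (top y p) m (top y (p * q))) ∨ (∃ m, Shift (top y q) m (top y (p * q))) := by
  obtain ⟨t, ht⟩ := hN.nonempty
  obtain ⟨a, ha, b, hb, -⟩ := mem_top_mul.mp ht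
  by_cases h : ∀ b' ∈ top y q, b' = b
  · left
    refine ⟨b, fun t ht => mem_top_mul.mpr ⟨t, ht, b, hb, rfl⟩, fun t ht => ?_⟩
    obtain ⟨a', ha', b', hb', rfl⟩ := mem_top_mul.mp ht
    exact ⟨a', ha', by rw [h b' hb']⟩
  · right
    push Not at h
    obtain ⟨b', hb', hne⟩ := h
    have h1 : ∀ a' ∈ top y p, a' = a := by
      intro a' ha'
      rcases hS a' a b' b (mem_top_mul.mpr ⟨_, ha', _, hb', rfl⟩)
        (mem_top_mul.mpr ⟨_, ha, _, hb, rfl⟩) (mem_top_mul.mpr ⟨_, ha', _, hb, rfl⟩)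
        (mem_top_mul.mpr ⟨_, ha, _, hb', rfl⟩) with h | h
      · exact h
      · exact absurd h hne
    refine ⟨a, fun t ht => mem_top_mul.mpr ⟨a, ha, t, ht, add_comm _ _⟩, fun t ht => ?_⟩
    obtain ⟨a', ha', b'', hb'', rfl⟩ := mem_top_mul.mp ht
    exact ⟨b'', hb'', by rw [h1 a' ha', add_comm]⟩

/-- substitutions of a variable or a constant for each variable -/
def Simple (θ : V → MvPolynomial V ℝ≥0) : Prop :=
  ∀ v, ((θ v).support : Set (V →₀ ℕ)).Subsingleton

lemma supp_C_sub (c : ℝ≥0) : (((C c : MvPolynomial V ℝ≥0)).support : Set (V →₀ ℕ)).Subsingleton := by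
  intro a ha b hb
  simp only [Finset.mem_coe, mem_support_iff, coeff_C, ne_eq, ite_eq_right_iff,
    Classical.not_imp] at ha hb
  rw [← ha.1, ← hb.1]

lemma Simple.update {θ : V → MvPolynomial V ℝ≥0} (h : Simple θ) (z : V) (c : ℝ≥0) :
    Simple (Function.update θ z (C c)) := by
  intro v
  by_cases hv : v = z
  · subst hv; rw [Function.update_self]; exact supp_C_sub c
  · rw [Function.update_of_ne hv]; exact h v

omit [DecidableEq V] in
lemma simple_X : Simple (X : V → MvPolynomial V ℝ≥0) := by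
  intro v
  rw [support_X]
  simp

lemma block_shift (y : V) (Q : List (Qt × V)) (p : MvPolynomial V ℝ≥0)
    (θ : V → MvPolynomial V ℝ≥0) : ∃ θ' : V → MvPolynomial V ℝ≥0, (Simple θ → Simple θ') ∧
    (Sidon (top y (bind₁ θ (block Q p))) → (top y (bind₁ θ (block Q p))).Nontrivial →
      ∃ m, Shift (top y (bind₁ θ' p)) m (top y (bind₁ θ (block Q p)))) := by
  induction Q generalizing θ with
  | nil => exact ⟨θ, id, fun _ _ => ⟨0, Shift.refl _⟩⟩
  | cons q Q ih =>
    obtain ⟨k, z⟩ := q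
    cases k with
    | sum =>
      obtain ⟨θ', h0, h⟩ := ih (Function.update θ z (C 1))
      refine ⟨θ', fun hs => h0 (hs.update _ _), ?_⟩
      simp only [block]
      rw [top_congr y (supp_bind_sum θ z _)]
      exact h
    | prod =>
      by_cases hc : Sidon (top y (bind₁ θ (block ((Qt.prod, z) :: Q) p))) ∧
          (top y (bind₁ θ (block ((Qt.prod, z) :: Q) p))).Nontrivial
      · obtain ⟨hS, hN⟩ := hc
        simp only [block] at hS hN ⊢
        rw [bind_prod] at hS hN ⊢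
        rcases mul_split hS hN with ⟨m, hm⟩ | ⟨m, hm⟩
        · obtain ⟨θ', h0, h⟩ := ih (Function.update θ z (C 0))
          obtain ⟨m', hm'⟩ := h (hS.emb hm.1) (hm.nontrivial hN)
          exact ⟨θ', fun hs => h0 (hs.update _ _), fun _ _ => ⟨_, hm'.trans hm⟩⟩
        · obtain ⟨θ', h0, h⟩ := ih (Function.update θ z (C 1))
          obtain ⟨m', hm'⟩ := h (hS.emb hm.1) (hm.nontrivial hN)
          exact ⟨θ', fun hs => h0 (hs.update _ _), fun _ _ => ⟨_, hm'.trans hm⟩⟩
      · exact ⟨θ, id, fun h1 h2 => absurd ⟨h1, h2⟩ hc⟩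
    | set0 =>
      obtain ⟨θ', h0, h⟩ := ih (Function.update θ z (C 0))
      refine ⟨θ', fun hs => h0 (hs.update _ _), ?_⟩
      simp only [block, app, bind_fix]
      exact h
    | set1 =>
      obtain ⟨θ', h0, h⟩ := ih (Function.update θ z (C 1))
      refine ⟨θ', fun hs => h0 (hs.update _ _), ?_⟩
      simp only [block, app, bind_fix]
      exact h

end Pool.Agent.MP_a2d820_lc.h28

end MrgPart0

-- ======== part 1: formerly Pool.Agent.MP_a2d820_lc.h28.Comp
section MrgPart1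

set_option autoImplicit false

namespace Pool.Agent.MP_a2d820_lc.h28

open MvPolynomial
open scoped NNReal

variable {V : Type} [DecidableEq V]

/-- `p` can be added at cost `c` to any program that contains `H` -/
def Comp (ok : Qt → Prop) (H : List (MvPolynomial V ℝ≥0 × ℕ)) (p : MvPolynomial V ℝ≥0)
    (d c : ℕ) : Prop :=
  ∀ L s, SLP ok L s → H ⊆ L → ∃ L' s', SLP ok L' s' ∧ s' ≤ s + c ∧ L ⊆ L' ∧ (p, d) ∈ L'

variable {ok : Qt → Prop} {H : List (MvPolynomial V ℝ≥0 × ℕ)}

lemma Comp.mono {p : MvPolynomial V ℝ≥0} {d c c' : ℕ} (h : Comp ok H p d c) (hc : c ≤ c') :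
    Comp ok H p d c' := by
  intro L s hL hH
  obtain ⟨L', s', h1, h2, h3, h4⟩ := h L s hL hH
  exact ⟨L', s', h1, by omega, h3, h4⟩

lemma Comp.hyp {p : MvPolynomial V ℝ≥0} {d : ℕ} (h : (p, d) ∈ H) : Comp ok H p d 0 :=
  fun L s hL hH => ⟨L, s, hL, le_rfl, List.Subset.refl _, hH h⟩

lemma Comp.const (c : ℝ≥0) (d : ℕ) : Comp ok H (C c) d 1 :=
  fun L s hL _ => ⟨_, _, SLP.const L s c d hL, le_rfl, List.subset_cons_self _ _,
    List.mem_cons_self⟩

lemma Comp.var (v : V) (d : ℕ) : Comp ok H (X v) d 1 :=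
  fun L s hL _ => ⟨_, _, SLP.var L s v d hL, le_rfl, List.subset_cons_self _ _,
    List.mem_cons_self⟩

lemma Comp.add {p q : MvPolynomial V ℝ≥0} {d c c' : ℕ} (hp : Comp ok H p d c)
    (hq : Comp ok H q d c') : Comp ok H (p + q) d (c + c' + 1) := by
  intro L s hL hH
  obtain ⟨L1, s1, h1, h2, h3, h4⟩ := hp L s hL hH
  obtain ⟨L2, s2, h5, h6, h7, h8⟩ := hq L1 s1 h1 (List.Subset.trans hH h3)
  exact ⟨_, _, SLP.add L2 s2 p q d d d h5 (h7 h4) h8 le_rfl le_rfl, by omega,
    List.Subset.trans (List.Subset.trans h3 h7) (List.subset_cons_self _ _), List.mem_cons_self⟩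

lemma Comp.mul {p q : MvPolynomial V ℝ≥0} {d c c' : ℕ} (hp : Comp ok H p d c)
    (hq : Comp ok H q d c') : Comp ok H (p * q) d (c + c' + 1) := by
  intro L s hL hH
  obtain ⟨L1, s1, h1, h2, h3, h4⟩ := hp L s hL hH
  obtain ⟨L2, s2, h5, h6, h7, h8⟩ := hq L1 s1 h1 (List.Subset.trans hH h3)
  exact ⟨_, _, SLP.mul L2 s2 p q d d d h5 (h7 h4) h8 le_rfl le_rfl, by omega,
    List.Subset.trans (List.Subset.trans h3 h7) (List.subset_cons_self _ _), List.mem_cons_self⟩

lemma Comp.quant {p : MvPolynomial V ℝ≥0} {d c : ℕ} (hp : Comp ok H p d c) (Q : List (Qt × V))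
    (hQ : ∀ q ∈ Q, ok q.1) : Comp ok H (block Q p) (d + 1) (c + 1 + Q.length) := by
  intro L s hL hH
  obtain ⟨L1, s1, h1, h2, h3, h4⟩ := hp L s hL hH
  exact ⟨_, _, SLP.quant L1 s1 p d (d + 1) Q h1 h4 (by omega) hQ, by omega,
    List.Subset.trans h3 (List.subset_cons_self _ _), List.mem_cons_self⟩

lemma Comp.sum {ι : Type*} (S : Finset ι) (p : ι → MvPolynomial V ℝ≥0) {d c : ℕ}
    (h : ∀ i ∈ S, Comp ok H (p i) d c) : Comp ok H (∑ i ∈ S, p i) d (S.card * (c + 1) + 1) := by
  classical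
  induction S using Finset.induction_on with
  | empty => simpa using (Comp.const (ok := ok) (H := H) 0 d)
  | insert a S ha ih =>
    rw [Finset.sum_insert ha, Finset.card_insert_of_notMem ha]
    refine ((h a (Finset.mem_insert_self _ _)).add
      (ih fun i hi => h i (Finset.mem_insert_of_mem hi))).mono (le_of_eq ?_)
    ring

lemma Comp.prod {ι : Type*} (S : Finset ι) (p : ι → MvPolynomial V ℝ≥0) {d c : ℕ}
    (h : ∀ i ∈ S, Comp ok H (p i) d c) : Comp ok H (∏ i ∈ S, p i) d (S.card * (c + 1) + 1) := by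
  classical
  induction S using Finset.induction_on with
  | empty => simpa using (Comp.const (ok := ok) (H := H) 1 d)
  | insert a S ha ih =>
    rw [Finset.prod_insert ha, Finset.card_insert_of_notMem ha]
    refine ((h a (Finset.mem_insert_self _ _)).mul
      (ih fun i hi => h i (Finset.mem_insert_of_mem hi))).mono (le_of_eq ?_)
    ring

lemma Comp.cut {p q : MvPolynomial V ℝ≥0} {d e c c' : ℕ} (hp : Comp ok H p d c)
    (hq : Comp ok [(p, d)] q e c') : Comp ok H q e (c + c') := by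
  intro L s hL hH
  obtain ⟨L1, s1, h1, h2, h3, h4⟩ := hp L s hL hH
  obtain ⟨L2, s2, h5, h6, h7, h8⟩ := hq L1 s1 h1 (by simpa using h4)
  exact ⟨L2, s2, h5, by omega, List.Subset.trans h3 h7, h8⟩

lemma Comp.computes {p : MvPolynomial V ℝ≥0} {d c : ℕ} (h : Comp ok [] p d c) :
    ∃ s ≤ c, Computes ok p s d := by
  obtain ⟨L, s, h1, h2, -, h4⟩ := h [] 0 SLP.nil (List.Subset.refl _)
  exact ⟨s, by omega, L, h1, h4⟩

/-- `p` depends only on the variables in `A` -/
def Dep (A : Set V) (p : MvPolynomial V ℝ≥0) : Prop :=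
  ∀ θ θ' : V → MvPolynomial V ℝ≥0, (∀ v ∈ A, θ v = θ' v) → bind₁ θ p = bind₁ θ' p

lemma Dep.block {A : Set V} {p : MvPolynomial V ℝ≥0} (Q : List (Qt × V))
    (h : Dep (A ∪ {v | ∃ q ∈ Q, q.2 = v}) p) : Dep A (block Q p) := by
  induction Q generalizing A with
  | nil => simpa [h28.block] using h
  | cons q Q ih =>
    have h1 : Dep (A ∪ {q.2}) (h28.block Q p) := by
      refine ih fun θ θ' hθ => h θ θ' fun v hv => hθ v ?_
      simp only [List.mem_cons, Set.mem_union, Set.mem_ofPred_eq, Set.mem_singleton_iff] at hv ⊢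
      rcases hv with hv | ⟨q', hq' | hq', rfl⟩
      · exact Or.inl (Or.inl hv)
      · exact Or.inl (Or.inr (by rw [hq']))
      · exact Or.inr ⟨q', hq', rfl⟩
    intro θ θ' hθ
    have h2 : ∀ c : ℝ≥0, bind₁ θ (fix q.2 c (h28.block Q p)) =
        bind₁ θ' (fix q.2 c (h28.block Q p)) := by
      intro c
      rw [bind_fix, bind_fix]
      refine h1 _ _ fun v hv => ?_
      by_cases hvq : v = q.2
      · subst hvq; simp
      · rw [Function.update_of_ne hvq, Function.update_of_ne hvq]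
        exact hθ v (hv.resolve_right hvq)
    obtain ⟨k, z⟩ := q
    cases k <;> simp only [h28.block, app, map_add, map_mul] <;> simp only at h2 <;> simp [h2]

lemma supp_bind_sums (l : List V) (Q : List (Qt × V)) (p : MvPolynomial V ℝ≥0)
    (θ : V → MvPolynomial V ℝ≥0) :
    (bind₁ θ (block (l.map (fun z => (Qt.sum, z)) ++ Q) p)).support =
      (bind₁ (fun v => if v ∈ l then C 1 else θ v) (block Q p)).support := by
  induction l generalizing θ with
  | nil => simp
  | cons z l ih =>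
    simp only [List.map_cons, List.cons_append, block]
    rw [supp_bind_sum, ih]
    congr 3
    funext v
    by_cases h : v = z
    · subst h; simp
    · simp [h]

lemma supp_bind_sums' (l : List V) (Q : List (Qt × V)) (p : MvPolynomial V ℝ≥0)
    (θ : V → MvPolynomial V ℝ≥0) : ∃ ψ : V → MvPolynomial V ℝ≥0, (∀ v ∈ l, ψ v = C 1) ∧
    (∀ v, v ∉ l → ψ v = θ v) ∧
    (bind₁ θ (block (l.map (fun z => (Qt.sum, z)) ++ Q) p)).support =
      (bind₁ ψ (block Q p)).support :=
  ⟨_, fun _ hv => if_pos hv, fun _ hv => if_neg hv, supp_bind_sums l Q p θ⟩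

/-- the part of degree exactly `D` in `y`, where `D` bounds the degree -/
def TopIs (y : V) (p : MvPolynomial V ℝ≥0) (D : ℕ) (S : Set (V →₀ ℕ)) : Prop :=
  (∀ m ∈ p.support, m y ≤ D) ∧ ∀ m, m ∈ S ↔ m ∈ p.support ∧ m y = D

omit [DecidableEq V] in
lemma TopIs.congr {y : V} {p q : MvPolynomial V ℝ≥0} {D : ℕ} {S : Set (V →₀ ℕ)}
    (h : TopIs y p D S) (e : q.support = p.support) : TopIs y q D S := by
  unfold TopIs at h ⊢; rw [e]; exact h

omit [DecidableEq V] in
lemma TopIs.top {y : V} {p : MvPolynomial V ℝ≥0} {D : ℕ} {S : Set (V →₀ ℕ)}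
    (h : TopIs y p D S) (hS : S.Nonempty) : top y p = S := by
  obtain ⟨s, hs⟩ := hS
  have hs' := (h.2 s).mp hs
  ext m
  rw [h.2]
  constructor
  · rintro ⟨h1, h2⟩
    have := h2 s hs'.1
    have := h.1 m h1
    exact ⟨h1, by omega⟩
  · rintro ⟨h1, h2⟩
    exact ⟨h1, fun m' hm' => by rw [h2]; exact h.1 m' hm'⟩

lemma TopIs.mul_single {y : V} {p q : MvPolynomial V ℝ≥0} {D E : ℕ} {S : Set (V →₀ ℕ)}
    {t : V →₀ ℕ} (hp : TopIs y p D S) (hq : TopIs y q E {t}) :
    TopIs y (p * q) (D + E) ((· + t) '' S) := by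
  refine ⟨fun m hm => ?_, fun m => ?_⟩
  · obtain ⟨a, ha, b, hb, rfl⟩ := mem_supp_mul.mp hm
    exact Nat.add_le_add (hp.1 a ha) (hq.1 b hb)
  · constructor
    · rintro ⟨a, ha, rfl⟩
      have h1 := (hp.2 a).mp ha
      have h2 := (hq.2 t).mp rfl
      exact ⟨mem_supp_mul.mpr ⟨a, h1.1, t, h2.1, rfl⟩, by
        simp only [Finsupp.add_apply]; omega⟩
    · rintro ⟨hm, hD⟩
      obtain ⟨a, ha, b, hb, rfl⟩ := mem_supp_mul.mp hm
      have h1 := hp.1 a ha
      have h2 := hq.1 b hb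
      simp only [Finsupp.add_apply] at hD
      have h3 : b = t := (hq.2 b).mpr ⟨hb, by omega⟩
      exact ⟨a, (hp.2 a).mpr ⟨ha, by omega⟩, by rw [h3]⟩

omit [DecidableEq V] in
lemma TopIs.sum {ι : Type*} [Fintype ι] {y : V} {p : ι → MvPolynomial V ℝ≥0} {D : ℕ}
    {S : ι → Set (V →₀ ℕ)} (h : ∀ i, TopIs y (p i) D (S i)) :
    TopIs y (∑ i, p i) D (⋃ i, S i) := by
  refine ⟨fun m hm => ?_, fun m => ?_⟩
  · obtain ⟨i, -, hi⟩ := (mem_supp_sum _ _).mp hm
    exact (h i).1 m hi
  · rw [Set.mem_iUnion, mem_supp_sum]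
    constructor
    · rintro ⟨i, hi⟩
      have := ((h i).2 m).mp hi
      exact ⟨⟨i, Finset.mem_univ _, this.1⟩, this.2⟩
    · rintro ⟨⟨i, -, hi⟩, hD⟩
      exact ⟨i, ((h i).2 m).mpr ⟨hi, hD⟩⟩

end Pool.Agent.MP_a2d820_lc.h28

end MrgPart1

-- ======== part 2: formerly Pool.Agent.MP_a2d820_lc.h28.Lower
section MrgPart2

set_option autoImplicit false

namespace Pool.Agent.MP_a2d820_lc.h28

open MvPolynomial
open scoped NNReal

variable {V : Type} [DecidableEq V]

/-- the chosen state below a block -/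
noncomputable def ch (y : V) (g : List (Qt × V) × MvPolynomial V ℝ≥0)
    (θ : V → MvPolynomial V ℝ≥0) : V → MvPolynomial V ℝ≥0 :=
  (block_shift y g.1 g.2 θ).choose

open Classical in
/-- states reached through at most `j` blocks -/
noncomputable def St (y : V) (R : Finset (List (Qt × V) × MvPolynomial V ℝ≥0)) :
    ℕ → (V → MvPolynomial V ℝ≥0) → Finset (V → MvPolynomial V ℝ≥0)
  | 0, θ => {θ}
  | j + 1, θ => insert θ (R.biUnion fun g => St y R j (ch y g θ))

lemma card_St (y : V) (R : Finset (List (Qt × V) × MvPolynomial V ℝ≥0)) (j : ℕ)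
    (θ : V → MvPolynomial V ℝ≥0) : (St y R j θ).card ≤ (R.card + 1) ^ j := by
  classical
  induction j generalizing θ with
  | zero => simp [St]
  | succ j ih =>
    simp only [St]
    refine (Finset.card_insert_le _ _).trans ?_
    have h1 := Finset.card_biUnion_le_card_mul R (fun g => St y R j (ch y g θ))
      ((R.card + 1) ^ j) (fun g _ => ih _)
    have h2 : 1 ≤ (R.card + 1) ^ j := Nat.one_le_pow _ _ (by omega)
    have h3 : (R.card + 1) ^ (j + 1) = R.card * (R.card + 1) ^ j + (R.card + 1) ^ j := by ring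
    rw [h3]
    exact Nat.add_le_add (by convert h1) h2

lemma self_mem_St (y : V) (R : Finset (List (Qt × V) × MvPolynomial V ℝ≥0)) (j : ℕ)
    (θ : V → MvPolynomial V ℝ≥0) : θ ∈ St y R j θ := by
  cases j <;> simp [St]

lemma St_mono (y : V) {R R' : Finset (List (Qt × V) × MvPolynomial V ℝ≥0)} (hR : R ⊆ R')
    {j j' : ℕ} (hj : j ≤ j') (θ : V → MvPolynomial V ℝ≥0) : St y R j θ ⊆ St y R' j' θ := by
  classical
  induction j generalizing j' θ with
  | zero =>
    intro a ha
    simp only [St, Finset.mem_singleton] at ha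
    rw [ha]; exact self_mem_St _ _ _ _
  | succ j ih =>
    obtain ⟨j', rfl⟩ : ∃ i, j' = i + 1 := ⟨j' - 1, by omega⟩
    intro a ha
    simp only [St, Finset.mem_insert, Finset.mem_biUnion] at ha ⊢
    rcases ha with ha | ⟨g, hg, ha⟩
    · exact Or.inl ha
    · exact Or.inr ⟨g, hR hg, ih (by omega) _ ha⟩

/-- every top monomial is charged to an addition gate in some state -/
def Inv (y : V) (A : Finset (MvPolynomial V ℝ≥0 × MvPolynomial V ℝ≥0))
    (R : Finset (List (Qt × V) × MvPolynomial V ℝ≥0)) (p : MvPolynomial V ℝ≥0) (d : ℕ) : Prop :=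
  ∀ θ : V → MvPolynomial V ℝ≥0, Simple θ →
    Sidon (top y (bind₁ θ p)) → (top y (bind₁ θ p)).Nontrivial →
    ∀ s ∈ top y (bind₁ θ p), ∃ g ∈ A, ∃ θ' ∈ St y R d θ, ∃ (b : Bool) (m t : V →₀ ℕ),
      (top y (bind₁ θ' (g.1 + g.2))).Nontrivial ∧
      Emb (top y (bind₁ θ' (g.1 + g.2))) m (top y (bind₁ θ p)) ∧
      top y (bind₁ θ' (if b then g.1 else g.2)) = {t} ∧ s = t + m

lemma Inv.mono {y : V} {A A' : Finset (MvPolynomial V ℝ≥0 × MvPolynomial V ℝ≥0)}
    {R R' : Finset (List (Qt × V) × MvPolynomial V ℝ≥0)} {p : MvPolynomial V ℝ≥0} {d d' : ℕ}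
    (h : Inv y A R p d) (hA : A ⊆ A') (hR : R ⊆ R') (hd : d ≤ d') : Inv y A' R' p d' := by
  intro θ hθ hS hN s hs
  obtain ⟨g, hg, θ', hθ', rest⟩ := h θ hθ hS hN s hs
  exact ⟨g, hA hg, θ', St_mono y hR hd θ hθ', rest⟩

/-- transport along a translate -/
lemma Inv.lift {y : V} {A : Finset (MvPolynomial V ℝ≥0 × MvPolynomial V ℝ≥0)}
    {R : Finset (List (Qt × V) × MvPolynomial V ℝ≥0)} {p : MvPolynomial V ℝ≥0} {d : ℕ}
    (h : Inv y A R p d) (θ : V → MvPolynomial V ℝ≥0) (hθ : Simple θ) {T : Set (V →₀ ℕ)}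
    (hS : Sidon T)
    {m : V →₀ ℕ} (he : Emb (top y (bind₁ θ p)) m T) (hN : (top y (bind₁ θ p)).Nontrivial)
    {s : V →₀ ℕ} (hs : s ∈ top y (bind₁ θ p)) :
    ∃ g ∈ A, ∃ θ' ∈ St y R d θ, ∃ (b : Bool) (m' t : V →₀ ℕ),
      (top y (bind₁ θ' (g.1 + g.2))).Nontrivial ∧
      Emb (top y (bind₁ θ' (g.1 + g.2))) m' T ∧
      top y (bind₁ θ' (if b then g.1 else g.2)) = {t} ∧ s + m = t + m' := by
  obtain ⟨g, hg, θ', hθ', b, m', t, h1, h2, h3, h4⟩ := h θ hθ (hS.emb he) hN s hs
  refine ⟨g, hg, θ', hθ', b, m' + m, t, h1, fun u hu => ?_, h3, by rw [h4, add_assoc]⟩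
  rw [← add_assoc]
  exact he _ (h2 u hu)

lemma inv_add {y : V} {A : Finset (MvPolynomial V ℝ≥0 × MvPolynomial V ℝ≥0)}
    {R : Finset (List (Qt × V) × MvPolynomial V ℝ≥0)} {p q : MvPolynomial V ℝ≥0} {d : ℕ}
    (hp : Inv y A R p d) (hq : Inv y A R q d) (hA : (p, q) ∈ A) : Inv y A R (p + q) d := by
  intro θ hθ hS hN s hs
  have hs' := hs
  rw [map_add] at hs'
  rcases mem_supp_add.mp hs'.1 with h | h
  · obtain ⟨h1, h2⟩ := top_add_left hs' h
    rw [← map_add] at h2
    by_cases hn : (top y (bind₁ θ p)).Nontrivial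
    · have := hp.lift θ hθ hS (m := 0) (fun t ht => by simpa using h2 ht) hn h1
      simpa using this
    · refine ⟨(p, q), hA, θ, self_mem_St _ _ _ _, true, 0, s, hN,
        fun t ht => by simpa using ht, ?_, by simp⟩
      exact (Set.not_nontrivial_iff.mp hn).eq_singleton_of_mem h1
  · rw [add_comm] at hs'
    obtain ⟨h1, h2⟩ := top_add_left hs' h
    rw [add_comm, ← map_add] at h2
    by_cases hn : (top y (bind₁ θ q)).Nontrivial
    · have := hq.lift θ hθ hS (m := 0) (fun t ht => by simpa using h2 ht) hn h1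
      simpa using this
    · refine ⟨(p, q), hA, θ, self_mem_St _ _ _ _, false, 0, s, hN,
        fun t ht => by simpa using ht, ?_, by simp⟩
      exact (Set.not_nontrivial_iff.mp hn).eq_singleton_of_mem h1

lemma inv_mul {y : V} {A : Finset (MvPolynomial V ℝ≥0 × MvPolynomial V ℝ≥0)}
    {R : Finset (List (Qt × V) × MvPolynomial V ℝ≥0)} {p q : MvPolynomial V ℝ≥0} {d : ℕ}
    (hp : Inv y A R p d) (hq : Inv y A R q d) : Inv y A R (p * q) d := by
  intro θ hθ hS hN s hs
  rw [map_mul] at hS hN hs ⊢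
  rcases mul_split hS hN with ⟨m, hm⟩ | ⟨m, hm⟩
  · obtain ⟨t, ht, rfl⟩ := hm.2 s hs
    exact hp.lift θ hθ hS hm.1 (hm.nontrivial hN) ht
  · obtain ⟨t, ht, rfl⟩ := hm.2 s hs
    exact hq.lift θ hθ hS hm.1 (hm.nontrivial hN) ht

lemma inv_quant {y : V} {A : Finset (MvPolynomial V ℝ≥0 × MvPolynomial V ℝ≥0)}
    {R : Finset (List (Qt × V) × MvPolynomial V ℝ≥0)} {p : MvPolynomial V ℝ≥0} {d : ℕ}
    {Q : List (Qt × V)} (hp : Inv y A R p d) (hR : (Q, p) ∈ R) :
    Inv y A R (block Q p) (d + 1) := by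
  classical
  intro θ hθ hS hN s hs
  obtain ⟨m, hm⟩ := (block_shift y Q p θ).choose_spec.2 hS hN
  obtain ⟨t, ht, rfl⟩ := hm.2 s hs
  obtain ⟨g, hg, θ', hθ', rest⟩ := hp.lift _ ((block_shift y Q p θ).choose_spec.1 hθ) hS hm.1
    (hm.nontrivial hN) ht
  refine ⟨g, hg, θ', ?_, rest⟩
  simp only [St, Finset.mem_insert, Finset.mem_biUnion]
  exact Or.inr ⟨(Q, p), hR, hθ'⟩

lemma inv_of_sub {y : V} {A : Finset (MvPolynomial V ℝ≥0 × MvPolynomial V ℝ≥0)}
    {R : Finset (List (Qt × V) × MvPolynomial V ℝ≥0)} {p : MvPolynomial V ℝ≥0} {d : ℕ}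
    (h : ∀ θ : V → MvPolynomial V ℝ≥0, Simple θ →
      ((bind₁ θ p).support : Set (V →₀ ℕ)).Subsingleton) : Inv y A R p d := by
  intro θ hθ _ hN
  exfalso
  obtain ⟨a, ha, b, hb, hab⟩ := hN
  exact hab (h θ hθ ha.1 hb.1)

lemma slp_inv (y : V) {ok : Qt → Prop} {L : List (MvPolynomial V ℝ≥0 × ℕ)} {s : ℕ}
    (h : SLP ok L s) : ∃ (A : Finset (MvPolynomial V ℝ≥0 × MvPolynomial V ℝ≥0))
      (R : Finset (List (Qt × V) × MvPolynomial V ℝ≥0)), A.card ≤ s ∧ R.card ≤ s ∧
      ∀ x ∈ L, Inv y A R x.1 x.2 := by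
  classical
  induction h with
  | nil => exact ⟨∅, ∅, by simp, by simp, by simp⟩
  | const L s c d _ ih =>
    obtain ⟨A, R, h1, h2, h3⟩ := ih
    refine ⟨A, R, by omega, by omega, fun x hx => ?_⟩
    rcases List.mem_cons.mp hx with rfl | hx
    · exact inv_of_sub fun θ _ => by simpa using supp_C_sub c
    · exact h3 x hx
  | var L s v d _ ih =>
    obtain ⟨A, R, h1, h2, h3⟩ := ih
    refine ⟨A, R, by omega, by omega, fun x hx => ?_⟩
    rcases List.mem_cons.mp hx with rfl | hx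
    · exact inv_of_sub fun θ hθ => by simpa using hθ v
    · exact h3 x hx
  | add L s p q a b d _ hp hq ha hb ih =>
    obtain ⟨A, R, h1, h2, h3⟩ := ih
    have hA : A ⊆ insert (p, q) A := Finset.subset_insert _ _
    refine ⟨insert (p, q) A, R, (Finset.card_insert_le _ _).trans (by omega), by omega,
      fun x hx => ?_⟩
    rcases List.mem_cons.mp hx with rfl | hx
    · exact inv_add ((h3 _ hp).mono hA subset_rfl ha) ((h3 _ hq).mono hA subset_rfl hb)
        (Finset.mem_insert_self _ _)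
    · exact (h3 x hx).mono hA subset_rfl le_rfl
  | mul L s p q a b d _ hp hq ha hb ih =>
    obtain ⟨A, R, h1, h2, h3⟩ := ih
    refine ⟨A, R, by omega, by omega, fun x hx => ?_⟩
    rcases List.mem_cons.mp hx with rfl | hx
    · exact inv_mul ((h3 _ hp).mono subset_rfl subset_rfl ha)
        ((h3 _ hq).mono subset_rfl subset_rfl hb)
    · exact h3 x hx
  | quant L s p a d Q _ hp ha _ ih =>
    obtain ⟨A, R, h1, h2, h3⟩ := ih
    have hR : R ⊆ insert (Q, p) R := Finset.subset_insert _ _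
    refine ⟨A, insert (Q, p) R, by omega, (Finset.card_insert_le _ _).trans (by omega),
      fun x hx => ?_⟩
    rcases List.mem_cons.mp hx with rfl | hx
    · exact (inv_quant ((h3 _ hp).mono subset_rfl hR le_rfl) (Finset.mem_insert_self _ _)).mono
        subset_rfl subset_rfl ha
    · exact (h3 x hx).mono subset_rfl hR le_rfl

/-- the lower bound -/
theorem lower (y : V) {ok : Qt → Prop} {f : MvPolynomial V ℝ≥0} {s k : ℕ}
    (h : Computes ok f s k) (hS : Sidon (top y f)) (T : Finset (V →₀ ℕ))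
    (hT : (T : Set (V →₀ ℕ)) ⊆ top y f) : T.card ≤ 2 * (s + 1) ^ (k + 1) := by
  classical
  have h1 : 1 ≤ (s + 1) ^ (k + 1) := Nat.one_le_pow _ _ (by omega)
  by_cases hN : (top y f).Nontrivial
  swap
  · have h2 : T.card ≤ 1 := Finset.card_le_one.mpr fun a ha b hb =>
      (Set.not_nontrivial_iff.mp hN) (hT ha) (hT hb)
    omega
  obtain ⟨L, hL, hf⟩ := h
  obtain ⟨A, R, hA, hR, hI⟩ := slp_inv y hL
  have h2 := hI _ hf X simple_X
  simp only [bind₁_X_left, AlgHom.id_apply] at h2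
  have h3 := h2 hS hN
  choose! g hg θ' hθ' b m t h4 h5 h6 h7 using h3
  have h8 : T.card ≤ ((A ×ˢ St y R k X) ×ˢ (Finset.univ : Finset Bool)).card := by
    refine Finset.card_le_card_of_injOn (fun u => ((g u, θ' u), b u)) ?_ ?_
    · intro u hu
      simp only [Finset.coe_product, Set.mem_prod, Finset.mem_coe, Finset.mem_univ, and_true]
      exact ⟨hg u (hT hu), hθ' u (hT hu)⟩
    · intro u hu v hv huv
      simp only [Prod.mk.injEq] at huv
      obtain ⟨⟨e1, e2⟩, e3⟩ := huv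
      have hu' := hT hu
      have hv' := hT hv
      have e4 : t u = t v := by
        have a1 := h6 u hu'
        have a2 := h6 v hv'
        rw [e1, e2, e3, a2] at a1
        exact (Set.singleton_injective a1).symm
      obtain ⟨a, ha, a', ha', hne⟩ := h4 u hu'
      have a1 := h5 u hu'
      have a2 := h5 v hv'
      rw [← e1, ← e2] at a2
      rcases hS a a' (m u) (m v) (a1 a ha) (a2 a' ha') (a2 a ha) (a1 a' ha') with h | h
      · exact absurd h hne
      · rw [h7 u hu', h7 v hv', e4, h]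
  rw [Finset.card_product, Finset.card_product, Finset.card_univ, Fintype.card_bool] at h8
  have h9 := card_St y R k X
  have h10 : (R.card + 1) ^ k ≤ (s + 1) ^ k := Nat.pow_le_pow_left (by omega) k
  calc T.card ≤ A.card * (St y R k X).card * 2 := h8
    _ ≤ (s + 1) * (s + 1) ^ k * 2 :=
        Nat.mul_le_mul_right _ (Nat.mul_le_mul (by omega) (h9.trans h10))
    _ = _ := by ring

end Pool.Agent.MP_a2d820_lc.h28

end MrgPart2

-- ======== part 3: formerly Pool.Agent.MP_a2d820_lc.h28.Family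
section MrgPart3

set_option autoImplicit false

namespace Pool.Agent.MP_a2d820_lc.h28

open MvPolynomial
open scoped NNReal

/-- variables of the hard polynomial -/
abbrev XV (n r : ℕ) : Type := Option (Fin r × Fin r × Fin n × Fin n)

/-- all variables -/
abbrev W (n r : ℕ) : Type := XV n r ⊕ ℕ

variable {n r : ℕ}

/-- auxiliary variables -/
def zv (a : ℕ) (i : Fin n) : W n r := Sum.inr (Nat.pair a i)

/-- the marking variable -/
def yv : W n r := Sum.inl none

/-- edge variables -/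
def xv (a b : Fin r) (i j : Fin n) : W n r := Sum.inl (some (a, b, i, j))

lemma zv_inj {a b : ℕ} {i j : Fin n} : (zv a i : W n r) = zv b j ↔ a = b ∧ i = j := by
  simp [zv, Fin.ext_iff]

/-- test that all auxiliary variables of level `a` other than `i` are one -/
noncomputable def Ev (a : ℕ) (i : Fin n) : MvPolynomial (W n r) ℝ≥0 :=
  ∏ i' ∈ Finset.univ.erase i, X (zv a i')

/-- the base polynomial -/
noncomputable def G0 (n r : ℕ) : MvPolynomial (W n r) ℝ≥0 :=
  (∏ ab : Fin r × Fin r, ∑ ij : Fin n × Fin n,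
    X (xv ab.1 ab.2 ij.1 ij.2) * Ev ab.1 ij.1 * Ev ab.2 ij.2) +
  X yv * ∑ a : Fin r, ∏ i : Fin n, X (zv a i)

/-- the quantifier block of level `a` and label `i` -/
def pre (a : ℕ) (i : Fin n) : List (Qt × W n r) :=
  ((List.finRange n).map (zv a)).map (fun z => (Qt.sum, z)) ++ [(Qt.prod, zv a i)]

/-- the levels -/
noncomputable def G (n r : ℕ) : ℕ → MvPolynomial (W n r) ℝ≥0
  | 0 => G0 n r
  | a + 1 => ∑ i : Fin n, block (pre a i) (G n r a)

/-- summation and production only -/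
def okSP (q : Qt) : Prop := q = Qt.sum ∨ q = Qt.prod

lemma comp_Ev (a : ℕ) (i : Fin n) : Comp okSP [] (Ev a i : MvPolynomial (W n r) ℝ≥0) 0
    (2 * n + 1) := by
  refine (Comp.prod _ _ (fun i' _ => Comp.var _ 0)).mono ?_
  have := Finset.card_erase_le (s := (Finset.univ : Finset (Fin n))) (a := i)
  rw [Finset.card_univ, Fintype.card_fin] at this
  omega

lemma comp_G0 : Comp okSP [] (G0 n r) 0 (10 * (r + 1) ^ 2 * (n + 1) ^ 3) := by
  have h1 : Comp okSP [] (∏ ab : Fin r × Fin r, ∑ ij : Fin n × Fin n,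
      X (xv ab.1 ab.2 ij.1 ij.2) * Ev ab.1 ij.1 * Ev ab.2 ij.2 : MvPolynomial (W n r) ℝ≥0) 0 _ :=
    Comp.prod _ _ (fun ab _ => Comp.sum _ _ (fun ij _ =>
      ((Comp.var _ 0).mul (comp_Ev _ _)).mul (comp_Ev _ _)))
  have h2 : Comp okSP [] (X yv * ∑ a : Fin r, ∏ i : Fin n, X (zv a i) :
      MvPolynomial (W n r) ℝ≥0) 0 _ :=
    (Comp.var _ 0).mul (Comp.sum _ _ (fun a _ => Comp.prod _ _ (fun i _ => Comp.var _ 0)))
  refine (h1.add h2).mono ?_
  simp only [Finset.card_univ, Fintype.card_prod, Fintype.card_fin]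
  have e : 10 * (r + 1) ^ 2 * (n + 1) ^ 3 = r * r * (n * n * (4 * n + 6) + 2) + r * (2 * n + 2) + 5 +
      (r * r * (6 * n ^ 3 + 24 * n ^ 2 + 30 * n + 8) + r * (20 * n ^ 3 + 60 * n ^ 2 + 58 * n + 18)
        + (10 * n ^ 3 + 30 * n ^ 2 + 30 * n + 5)) := by ring
  rw [e]
  refine le_trans (le_of_eq ?_) (Nat.le_add_right _ _)
  ring

lemma comp_G (a : ℕ) : Comp okSP [] (G n r a) a
    (10 * (r + 1) ^ 2 * (n + 1) ^ 3 + a * (n * (n + 3) + 1)) := by
  induction a with
  | zero => simpa [G] using comp_G0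
  | succ a ih =>
    have h1 : Comp okSP [(G n r a, a)] (G n r (a + 1)) (a + 1) (n * (n + 3) + 1) := by
      simp only [G]
      refine (Comp.sum (c := n + 2) _ _ (fun i _ => ?_)).mono (by simp)
      refine ((Comp.hyp (by simp)).quant (pre a i) ?_).mono (by simp [pre]; omega)
      intro q hq
      simp only [pre, List.map_map, List.mem_append, List.mem_map, List.mem_singleton] at hq
      rcases hq with ⟨i', -, rfl⟩ | rfl
      · exact Or.inl rfl
      · exact Or.inr rfl
    exact (ih.cut h1).mono (le_of_eq (by ring))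

/-- the variables that are still free at level `a` -/
def Fr (n r a : ℕ) : Set (W n r) :=
  {v | (∃ x, v = Sum.inl x) ∨ ∃ (b : ℕ) (i : Fin n), a ≤ b ∧ b < r ∧ v = zv b i}

lemma dep_G (a : ℕ) : Dep (Fr n r a) (G n r a) := by
  induction a with
  | zero =>
    intro θ θ' h
    have h1 : ∀ (a : Fin r) (i : Fin n), θ (zv a i) = θ' (zv a i) := fun a i =>
      h _ (Or.inr ⟨a, i, Nat.zero_le _, a.2, rfl⟩)
    have h2 : ∀ a b i j, θ (xv a b i j) = θ' (xv a b i j) := fun a b i j => h _ (Or.inl ⟨_, rfl⟩)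
    have h3 : θ yv = θ' yv := h _ (Or.inl ⟨_, rfl⟩)
    simp only [G, G0, Ev, map_add, map_prod, map_sum, map_mul, bind₁_X_right, h1, h2, h3]
  | succ a ih =>
    intro θ θ' h
    simp only [G, map_sum]
    refine Finset.sum_congr rfl fun i _ => ?_
    refine Dep.block (A := Fr n r (a + 1)) (pre a i) (fun θ θ' h => ih θ θ' fun v hv => h v ?_) θ θ' h
    rcases hv with hv | ⟨b, j, h1, h2, rfl⟩
    · exact Or.inl (Or.inl hv)
    · by_cases hb : b = a
      · subst hb
        right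
        exact ⟨(Qt.sum, zv b j), by simp [pre], rfl⟩
      · exact Or.inl (Or.inr ⟨b, j, by omega, h2, rfl⟩)

open Classical in
/-- the state in which level `a` has a zero exactly at the label `σ a` -/
noncomputable def th (σ : ℕ → Option (Fin n)) : W n r → MvPolynomial (W n r) ℝ≥0
  | Sum.inl x => X (Sum.inl x)
  | Sum.inr k => if ∃ (a : ℕ) (i : Fin n), k = Nat.pair a i ∧ σ a = some i then C 0 else C 1

lemma th_zv (σ : ℕ → Option (Fin n)) (a : ℕ) (i : Fin n) :
    (th σ (zv a i) : MvPolynomial (W n r) ℝ≥0) = if σ a = some i then C 0 else C 1 := by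
  simp only [zv, th]
  congr 1
  apply propext
  constructor
  · rintro ⟨b, j, h1, h2⟩
    rw [Nat.pair_eq_pair] at h1
    rw [h1.1, Fin.ext h1.2]; exact h2
  · intro h; exact ⟨a, i, rfl, h⟩

lemma supp_step (σ : ℕ → Option (Fin n)) (a : ℕ) :
    (bind₁ (th σ) (G n r (a + 1))).support =
      (∑ i : Fin n, bind₁ (th (Function.update σ a (some i))) (G n r a) *
        bind₁ (th (Function.update σ a none)) (G n r a)).support := by
  simp only [G, map_sum]
  refine supp_sum_congr _ fun i _ => ?_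
  obtain ⟨ψ, hψ1, hψ2, hψ3⟩ := supp_bind_sums' ((List.finRange n).map (zv a)) [(Qt.prod, zv a i)]
    (G n r a) (th σ)
  rw [pre, hψ3]
  simp only [block]
  rw [bind_prod]
  have key : ∀ (c : ℝ≥0) (o : Option (Fin n)), (c = 0 ∧ o = some i) ∨ (c = 1 ∧ o = none) →
      bind₁ (Function.update ψ (zv a i) (C c)) (G n r a) = bind₁ (th (Function.update σ a o)) (G n r a) := by
    intro c o hc
    refine dep_G a _ _ fun v hv => ?_
    rcases hv with ⟨x, rfl⟩ | ⟨b, j, -, -, rfl⟩
    · rw [Function.update_of_ne (by simp [zv]), hψ2 _ (by simp [zv])]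
      rfl
    · rw [th_zv]
      by_cases hb : b = a
      · subst hb
        rw [Function.update_self]
        by_cases hj : j = i
        · subst hj
          rw [Function.update_self]
          rcases hc with ⟨rfl, rfl⟩ | ⟨rfl, rfl⟩ <;> simp
        · rw [Function.update_of_ne (by simp [zv_inj, hj]), hψ1 _ (by simp [zv_inj])]
          rcases hc with ⟨rfl, rfl⟩ | ⟨rfl, rfl⟩
          · rw [if_neg (by simpa using Ne.symm hj)]
          · simp
      · rw [Function.update_of_ne (by simp [zv_inj, hb]), Function.update_of_ne hb,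
          hψ2 _ (by simp [zv_inj, Ne.symm hb]), th_zv]
  rw [key 0 (some i) (Or.inl ⟨rfl, rfl⟩), key 1 none (Or.inr ⟨rfl, rfl⟩)]

lemma deg_congr {V : Type} {p q : MvPolynomial V ℝ≥0} (h : p.support = q.support) :
    p.totalDegree = q.totalDegree := by
  unfold totalDegree; rw [h]

lemma deg_th_zv (σ : ℕ → Option (Fin n)) (a : ℕ) (i : Fin n) :
    (th σ (zv a i) : MvPolynomial (W n r) ℝ≥0).totalDegree = 0 := by
  rw [th_zv]; split_ifs <;> exact totalDegree_C _

lemma deg_prod_zv (σ : ℕ → Option (Fin n)) (a : ℕ) (S : Finset (Fin n)) :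
    (∏ i ∈ S, th σ (zv a i) : MvPolynomial (W n r) ℝ≥0).totalDegree = 0 := by
  refine Nat.eq_zero_of_le_zero ((totalDegree_finsetProd _ _).trans ?_)
  simp [deg_th_zv]

lemma deg_G (a : ℕ) (σ : ℕ → Option (Fin n)) :
    (bind₁ (th σ) (G n r a)).totalDegree ≤ 2 ^ a * (r ^ 2 + 1) := by
  induction a generalizing σ with
  | zero =>
    simp only [G, G0, Ev, map_add, map_prod, map_sum, map_mul, bind₁_X_right]
    refine (totalDegree_add _ _).trans (max_le ?_ ?_)
    · refine (totalDegree_finsetProd _ _).trans ?_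
      refine (Finset.sum_le_card_nsmul _ _ 1 fun ab _ => ?_).trans (by simp [sq])
      refine (totalDegree_finsetSum _ _).trans (Finset.sup_le fun ij _ => ?_)
      refine (totalDegree_mul _ _).trans ?_
      rw [deg_prod_zv, add_zero]
      refine (totalDegree_mul _ _).trans ?_
      rw [deg_prod_zv, add_zero]
      exact (totalDegree_X _).le
    · refine (totalDegree_mul _ _).trans ?_
      have h1 : (∑ a : Fin r, ∏ i : Fin n, th σ (zv a i) :
          MvPolynomial (W n r) ℝ≥0).totalDegree ≤ 0 :=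
        (totalDegree_finsetSum _ _).trans (Finset.sup_le fun a _ => (deg_prod_zv σ a _).le)
      have h2 : (th σ yv : MvPolynomial (W n r) ℝ≥0).totalDegree = 1 := totalDegree_X _
      omega
  | succ a ih =>
    rw [deg_congr (supp_step σ a)]
    refine (totalDegree_finsetSum _ _).trans (Finset.sup_le fun i _ => ?_)
    refine (totalDegree_mul _ _).trans ?_
    have h1 := ih (Function.update σ a (some i))
    have h2 := ih (Function.update σ a none)
    rw [pow_succ]
    nlinarith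

/-- clique monomials -/
noncomputable def cl (τ : Fin r → Fin n) : W n r →₀ ℕ :=
  ∑ ab : Fin r × Fin r, Finsupp.single (xv ab.1 ab.2 (τ ab.1) (τ ab.2)) 1

lemma cl_yv (τ : Fin r → Fin n) : cl τ yv = 0 := by
  simp [cl, Finsupp.finsetSum_apply, xv, yv]

lemma cl_xv (τ : Fin r → Fin n) (a b : Fin r) (i j : Fin n) :
    cl τ (xv a b i j) = if τ a = i ∧ τ b = j then 1 else 0 := by
  rw [cl, Finsupp.finsetSum_apply, Finset.sum_eq_single (a, b)]
  · simp [xv, Finsupp.single_apply]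
  · rintro ⟨a', b'⟩ - h
    rw [Finsupp.single_eq_of_ne]
    simp only [xv, ne_eq, Sum.inl.injEq, Option.some.injEq, Prod.mk.injEq] at h ⊢
    tauto
  · simp

lemma cl_mid {τ1 τ2 τ3 τ4 : Fin r → Fin n} (h : cl τ1 + cl τ2 = cl τ3 + cl τ4) :
    τ3 = τ1 ∨ τ3 = τ2 := by
  by_contra hc
  push Not at hc
  obtain ⟨a, ha⟩ := Function.ne_iff.mp hc.1
  obtain ⟨b, hb⟩ := Function.ne_iff.mp hc.2
  have := DFunLike.congr_fun h (xv a b (τ3 a) (τ3 b))
  simp only [Finsupp.add_apply, cl_xv, and_self, if_true] at this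
  rw [if_neg (fun h => ha h.1.symm), if_neg (fun h => hb h.2.symm)] at this
  omega

lemma cl_inj : Function.Injective (cl : (Fin r → Fin n) → W n r →₀ ℕ) := by
  intro τ1 τ2 h
  have := cl_mid (τ1 := τ1) (τ2 := τ1) (τ3 := τ2) (τ4 := τ2) (by rw [h])
  tauto

lemma sidon_cl (m : W n r →₀ ℕ) : Sidon (Set.range (fun τ : Fin r → Fin n => cl τ + m)) := by
  rintro a a' b b' ⟨τ1, h1⟩ ⟨τ2, h2⟩ ⟨τ3, h3⟩ ⟨τ4, h4⟩
  simp only at h1 h2 h3 h4
  have h5 : cl τ1 + cl τ2 = cl τ3 + cl τ4 := by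
    have : (cl τ1 + m) + (cl τ2 + m) = (cl τ3 + m) + (cl τ4 + m) := by
      rw [h1, h2, h3, h4]; abel
    have h6 : (cl τ1 + cl τ2) + (m + m) = (cl τ3 + cl τ4) + (m + m) := by
      calc (cl τ1 + cl τ2) + (m + m) = (cl τ1 + m) + (cl τ2 + m) := by abel
        _ = (cl τ3 + m) + (cl τ4 + m) := this
        _ = _ := by abel
    exact add_right_cancel h6
  rcases cl_mid h5 with h | h
  · right
    rw [h, h1] at h3
    exact add_left_cancel h3
  · left
    rw [h, h2] at h3
    exact (add_right_cancel h3).symm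

lemma topIs_monomial {V : Type} (y : V) (m : V →₀ ℕ) (c : ℝ≥0) (hc : c ≠ 0) :
    TopIs y (monomial m c) (m y) {m} := by
  classical
  unfold TopIs
  rw [support_monomial, if_neg hc]
  refine ⟨fun m' hm' => by rw [Finset.mem_singleton.mp hm'], fun m' => ?_⟩
  simp only [Set.mem_singleton_iff, Finset.mem_singleton]
  exact ⟨fun h => ⟨h, by rw [h]⟩, fun h => h.1⟩

lemma base_A (σ : ℕ → Option (Fin n)) (a0 : Fin r) (h : σ a0 = none) :
    TopIs yv (bind₁ (th σ) (G0 n r)) 1 {Finsupp.single yv 1} := by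
  simp only [G0, Ev, map_add, map_prod, map_sum, map_mul, bind₁_X_right]
  have h1 : ∀ (a : ℕ) (S : Finset (Fin n)), ∃ c : ℝ≥0,
      (∏ i ∈ S, th σ (zv a i) : MvPolynomial (W n r) ℝ≥0) = C c ∧ (σ a = none → c = 1) := by
    intro a S
    refine ⟨∏ i ∈ S, if σ a = some i then 0 else 1, ?_, fun h => by simp [h]⟩
    rw [map_prod]
    refine Finset.prod_congr rfl fun i _ => ?_
    rw [th_zv]; split_ifs <;> rfl
  choose c hc1 hc2 using h1
  simp only [hc1]
  have h2 : (th σ yv * ∑ a : Fin r, C (c a Finset.univ) : MvPolynomial (W n r) ℝ≥0) =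
      monomial (Finsupp.single yv 1) (∑ a : Fin r, c a Finset.univ) := by
    rw [← map_sum, mul_comm]
    exact C_mul_X_eq_monomial
  have h3 : (∑ a : Fin r, c a Finset.univ) ≠ 0 := by
    intro h0
    rw [Finset.sum_eq_zero_iff] at h0
    have := h0 a0 (Finset.mem_univ _)
    rw [hc2 _ _ h] at this
    exact one_ne_zero this
  rw [h2]
  have h4 : ∀ m ∈ (∏ ab : Fin r × Fin r, ∑ ij : Fin n × Fin n,
      th σ (xv ab.1 ab.2 ij.1 ij.2) * C (c ab.1 (Finset.univ.erase ij.1)) *
        C (c ab.2 (Finset.univ.erase ij.2)) : MvPolynomial (W n r) ℝ≥0).support, m yv = 0 := by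
    intro m hm
    refine Nat.eq_zero_of_le_zero ((monomial_le_degreeOf yv hm).trans ?_)
    refine (degreeOf_prod_le _ _ _).trans (le_of_eq (Finset.sum_eq_zero fun ab _ => ?_))
    refine Nat.eq_zero_of_le_zero ((degreeOf_sum_le _ _ _).trans (Finset.sup_le fun ij _ => ?_))
    refine (degreeOf_mul_le _ _ _).trans ?_
    rw [degreeOf_C, add_zero]
    refine (degreeOf_mul_le _ _ _).trans ?_
    rw [degreeOf_C, add_zero]
    show degreeOf yv (X (xv ab.1 ab.2 ij.1 ij.2)) ≤ 0
    rw [degreeOf_X, if_neg (by simp [xv, yv])]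
  have h5 := topIs_monomial (yv : W n r) (Finsupp.single yv 1) _ h3
  rw [Finsupp.single_eq_same] at h5
  refine ⟨fun m hm => ?_, fun m => ?_⟩
  · rcases mem_supp_add.mp hm with h | h
    · rw [h4 m h]; omega
    · exact h5.1 m h
  · rw [h5.2, mem_supp_add]
    constructor
    · rintro ⟨h6, h7⟩; exact ⟨Or.inr h6, h7⟩
    · rintro ⟨h6 | h6, h7⟩
      · rw [h4 m h6] at h7; omega
      · exact ⟨h6, h7⟩

lemma base_B (σ : ℕ → Option (Fin n)) (τ : Fin r → Fin n) (h : ∀ a : Fin r, σ a = some (τ a)) :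
    bind₁ (th σ) (G0 n r) = monomial (cl τ) 1 := by
  simp only [G0, Ev, map_add, map_prod, map_sum, map_mul, bind₁_X_right]
  have h1 : ∀ (a : Fin r) (i : Fin n), (∏ i' ∈ Finset.univ.erase i, th σ (zv a i') :
      MvPolynomial (W n r) ℝ≥0) = if τ a = i then 1 else 0 := by
    intro a i
    split_ifs with hi
    · refine Finset.prod_eq_one fun i' hi' => ?_
      rw [th_zv, h, if_neg]
      · simp
      · rw [hi]; simpa using (Finset.ne_of_mem_erase hi').symm
    · refine Finset.prod_eq_zero (i := τ a) (by simpa using hi) ?_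
      rw [th_zv, if_pos (h a)]; simp
  have h2 : ∀ a : Fin r, (∏ i : Fin n, th σ (zv a i) : MvPolynomial (W n r) ℝ≥0) = 0 := by
    intro a
    refine Finset.prod_eq_zero (Finset.mem_univ (τ a)) ?_
    rw [th_zv, if_pos (h a)]; simp
  simp only [h1, h2, Finset.sum_const_zero, mul_zero, add_zero]
  rw [cl, monomial_sum_one]
  refine Finset.prod_congr rfl fun ab _ => ?_
  rw [Finset.sum_eq_single (τ ab.1, τ ab.2)]
  · simp only [if_true, mul_one]; rfl
  · rintro ⟨i, j⟩ - hij
    by_cases hi : τ ab.1 = i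
    · have hj : ¬ τ ab.2 = j := fun hj => hij (by rw [hi, hj])
      simp [hj]
    · simp [hi]
  · simp

lemma top_A (hn : 0 < n) (a : ℕ) (σ : ℕ → Option (Fin n)) (b : Fin r) (hb : a ≤ b)
    (h : σ b = none) :
    TopIs yv (bind₁ (th σ) (G n r a)) (2 ^ a) {Finsupp.single yv (2 ^ a)} := by
  induction a generalizing σ b with
  | zero => exact base_A σ b h
  | succ a ih =>
    have : Nonempty (Fin n) := ⟨⟨0, hn⟩⟩
    refine TopIs.congr ?_ (supp_step σ a)
    have hne : (b : ℕ) ≠ a := by omega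
    have h1 := TopIs.sum (fun i : Fin n =>
      (ih (Function.update σ a (some i)) b (by omega)
        (by rw [Function.update_of_ne hne]; exact h)).mul_single
      (ih (Function.update σ a none) b (by omega) (by rw [Function.update_of_ne hne]; exact h)))
    simp only [Set.image_singleton, Set.iUnion_const, ← Finsupp.single_add] at h1
    rw [pow_succ, mul_two]
    exact h1

lemma top_B (hn : 0 < n) (a : ℕ) (ha : a ≤ r) (σ : ℕ → Option (Fin n))
    (h : ∀ b : Fin r, a ≤ b → σ b ≠ none) :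
    TopIs yv (bind₁ (th σ) (G n r a)) (2 ^ a - 1)
      ((fun τ : Fin r → Fin n => cl τ + Finsupp.single yv (2 ^ a - 1)) ''
        {τ | ∀ b : Fin r, a ≤ b → σ b = some (τ b)}) := by
  induction a generalizing σ with
  | zero =>
    have h1 : ∀ b : Fin r, ∃ i, σ b = some i := fun b =>
      Option.ne_none_iff_exists'.mp (h b (Nat.zero_le _))
    choose τ hτ using h1
    have h2 : {τ' : Fin r → Fin n | ∀ b : Fin r, 0 ≤ (b : ℕ) → σ b = some (τ' b)} = {τ} := by
      ext τ'
      simp only [Set.mem_ofPred_eq, Set.mem_singleton_iff]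
      constructor
      · intro h3
        funext b
        have := h3 b (Nat.zero_le _)
        rw [hτ b] at this
        exact (Option.some_injective _ this).symm
      · rintro rfl b -; exact hτ b
    rw [h2]
    simp only [G, base_B σ τ hτ, pow_zero, Nat.sub_self, Finsupp.single_zero, add_zero,
      Set.image_singleton]
    have := topIs_monomial (yv : W n r) (cl τ) 1 one_ne_zero
    rw [cl_yv] at this
    exact this
  | succ a ih =>
    refine TopIs.congr ?_ (supp_step σ a)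
    have h1 := TopIs.sum (fun i : Fin n =>
      (ih (by omega) (Function.update σ a (some i)) (fun b hb => by
        by_cases hba : (b : ℕ) = a
        · rw [hba, Function.update_self]; simp
        · rw [Function.update_of_ne hba]; exact h b (by omega))).mul_single
      (top_A hn a (Function.update σ a none) ⟨a, by omega⟩ le_rfl (by simp)))
    have e : 2 ^ (a + 1) - 1 = 2 ^ a - 1 + 2 ^ a := by
      have : 1 ≤ 2 ^ a := Nat.one_le_two_pow
      rw [pow_succ]; omega
    rw [e]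
    convert h1 using 1
    ext m
    simp only [Set.mem_image, Set.mem_ofPred_eq, Set.mem_iUnion, exists_exists_and_eq_and]
    constructor
    · rintro ⟨τ, h2, rfl⟩
      refine ⟨τ ⟨a, by omega⟩, τ, fun b hb => ?_, by rw [Finsupp.single_add, add_assoc]⟩
      by_cases hba : (b : ℕ) = a
      · rw [hba, Function.update_self]
        congr 2
        exact Fin.ext hba.symm
      · rw [Function.update_of_ne hba]; exact h2 b (by omega)
    · rintro ⟨i, τ, h2, rfl⟩
      refine ⟨τ, fun b hb => ?_, by rw [Finsupp.single_add, add_assoc]⟩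
      have := h2 b (by omega)
      rwa [Function.update_of_ne (by omega)] at this

/-- the hard polynomial -/
noncomputable def F (n r : ℕ) : MvPolynomial (XV n r) ℝ≥0 :=
  bind₁ (Sum.elim X (fun _ => 1)) (G n r r)

lemma rename_F : rename Sum.inl (F n r) = bind₁ (th fun _ => none) (G n r r) := by
  rw [F, rename_bind₁]
  congr 2
  funext v
  rcases v with x | k
  · simp [th]
  · simp [th]

lemma rename_F' : rename Sum.inl (F n r) = G n r r := by
  rw [rename_F, dep_G r (th fun _ => none) X]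
  · simp
  · rintro v (⟨x, rfl⟩ | ⟨b, i, h1, h2, -⟩)
    · rfl
    · omega

lemma top_F (hn : 0 < n) : top yv (rename Sum.inl (F n r) : MvPolynomial (W n r) ℝ≥0) =
    Set.range (fun τ : Fin r → Fin n => cl τ + Finsupp.single yv (2 ^ r - 1)) := by
  have h := top_B (r := r) hn r le_rfl (fun _ => none) (fun b hb => by have := b.2; omega)
  have e : {τ : Fin r → Fin n | ∀ b : Fin r, r ≤ (b : ℕ) →
      (fun _ => none : ℕ → Option (Fin n)) b = some (τ b)} = Set.univ := by
    ext τ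
    simp only [Set.mem_ofPred_eq, Set.mem_univ, iff_true]
    intro b hb
    have := b.2
    omega
  rw [e, Set.image_univ] at h
  rw [rename_F]
  exact h.top ⟨_, fun _ => ⟨0, hn⟩, rfl⟩

end Pool.Agent.MP_a2d820_lc.h28

end MrgPart3

-- marker of a merged file
example : 731051 + 836812 = 731051 + 836812 := rfl
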